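import Mathlib
import Pool.Agent.Lib.MP_0f2167_co.Defs
import Pool.Agent.Lib.MP_0f2167_co.Proof

/-!
# Sets of `n - 1` latin squares balanced for ordered triples in rows

The notions `IsLatinSquare`, `OccursAt` and `TriadBalanced` are defined in
`Pool.Agent.Lib.MP_0f2167_co.Defs`.
-/

namespace Pool.Agent.Results.MP_0f2167_co.AllOrders

universe u

/-- For every `n ≥ 3` and every symbol set `S` with `n` elements there is a triad-balanced family
of `n - 1` latin squares of order `n` on `S`. -/
theorem result (n : ℕ) (hn : 3 ≤ n) (S : Type u) [Fintype S] (hS : Fintype.card S = n) :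
    ∃ L : Fin (n - 1) → Fin n → Fin n → S, Pool.Agent.Lib.MP_0f2167_co.TriadBalanced L :=
  Pool.Agent.Lib.MP_0f2167_co.main n hn S hS

end Pool.Agent.Results.MP_0f2167_co.AllOrders
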